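import Mathlib

/-!
# Lifting a simply connected covering through a covering
-/

set_option autoImplicit false

open Set Filter Topology

namespace Pool.Agent.Q227.Cov

variable {F M Y : Type*} [TopologicalSpace F] [TopologicalSpace M] [TopologicalSpace Y]

/-- restriction of an evenly covered neighbourhood to a smaller open set -/
theorem restr {f : M → Y} {I : Type*} [TopologicalSpace I] {U V : Set Y} (hV : IsOpen V)
    (hVU : V ⊆ U) (H : f ⁻¹' U ≃ₜ U × I) (hH : ∀ x, (H x).1.1 = f x) :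
    ∃ H' : f ⁻¹' V ≃ₜ V × I, ∀ x, (H' x).1.1 = f x := by
  refine ⟨{ toFun := fun x => (⟨f x, x.2⟩, (H ⟨x, hVU x.2⟩).2)
            invFun := fun p => ⟨(H.symm (⟨p.1, hVU p.1.2⟩, p.2)).1, ?_⟩
            left_inv := ?_
            right_inv := ?_
            continuous_toFun := ?_
            continuous_invFun := ?_ }, fun x => rfl⟩
  · have h1 := hH (H.symm (⟨p.1, hVU p.1.2⟩, p.2))
    rw [H.apply_symm_apply] at h1
    show f _ ∈ V
    rw [← h1]
    exact p.1.2
  · intro x
    apply Subtype.ext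
    show (H.symm (⟨f x, _⟩, (H ⟨x, hVU x.2⟩).2)).1 = x
    have h1 : ((⟨f x, hVU x.2⟩ : U), (H ⟨x, hVU x.2⟩).2) = H ⟨x, hVU x.2⟩ :=
      Prod.ext (Subtype.ext (hH ⟨x, hVU x.2⟩).symm) rfl
    rw [h1, H.symm_apply_apply]
  · intro p
    have h1 := hH (H.symm (⟨p.1, hVU p.1.2⟩, p.2))
    rw [H.apply_symm_apply] at h1
    refine Prod.ext (Subtype.ext h1.symm) ?_
    show (H ⟨(H.symm (⟨p.1, hVU p.1.2⟩, p.2)).1, _⟩).2 = p.2
    have h2 : (⟨(H.symm (⟨p.1, hVU p.1.2⟩, p.2)).1, (H.symm (⟨p.1, hVU p.1.2⟩, p.2)).2⟩ : f ⁻¹' U)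
        = H.symm (⟨p.1, hVU p.1.2⟩, p.2) := rfl
    rw [h2, H.apply_symm_apply]
  · have hc : Continuous fun x : f ⁻¹' V => (⟨x, hVU x.2⟩ : f ⁻¹' U) := by fun_prop
    have hf : Continuous fun x : f ⁻¹' V => f x := by
      have h1 : (fun x : f ⁻¹' V => f x) = fun x : f ⁻¹' V => (H ⟨x, hVU x.2⟩).1.1 := by
        funext x; exact (hH ⟨x.1, hVU x.2⟩).symm
      rw [h1]
      exact continuous_subtype_val.comp (continuous_fst.comp (H.continuous.comp hc))
    exact (hf.subtype_mk _).prodMk (continuous_snd.comp (H.continuous.comp hc))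
  · refine Continuous.subtype_mk ?_ _
    have hc : Continuous fun p : V × I => ((⟨p.1, hVU p.1.2⟩ : U), p.2) := by fun_prop
    exact continuous_subtype_val.comp (H.symm.continuous.comp hc)

/-- A lift `q` of a covering map `q'` through a covering map `h` is a covering map (when the base
is locally connected). -/
theorem covering_of_lift {h : M → Y} (hh : IsCoveringMap h) {q' : F → Y} (hq' : IsCoveringMap q')
    {q : F → M} (hqc : Continuous q) (hq : ∀ w, h (q w) = q' w)
    (hloc : ∀ y : Y, ∀ U : Set Y, IsOpen U → y ∈ U → ∃ V ⊆ U, IsOpen V ∧ y ∈ V ∧ IsPreconnected V) :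
    IsCoveringMap q := by
  rw [isCoveringMap_iff_isCoveringMapOn_univ]
  intro m _
  obtain ⟨iI, U1, hy1, hU1, -, H1, hH1⟩ := hh (h m)
  obtain ⟨iJ, U2, hy2, hU2, -, K1, hK1⟩ := hq' (h m)
  obtain ⟨V, hVU, hV, hyV, hVc⟩ := hloc (h m) (U1 ∩ U2) (hU1.inter hU2) ⟨hy1, hy2⟩
  obtain ⟨H, hH⟩ := restr hV (hVU.trans inter_subset_left) H1 hH1
  obtain ⟨K, hK⟩ := restr hV (hVU.trans inter_subset_right) K1 hK1
  have hcV : IsPreconnected (univ : Set V) := by
    rw [← Subtype.range_coe (s := V)] at hVc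
    have := isPreconnected_iff_preconnectedSpace.mp (Subtype.range_coe (s := V) ▸ hVc)
    exact isPreconnected_univ
  -- the section over the sheet number `j`
  have hK' : ∀ (u : V) (j : q' ⁻¹' {h m}), q' (K.symm (u, j)).1 = u := by
    intro u j
    rw [← hK, K.apply_symm_apply]
  have hmem : ∀ (u : V) (j : q' ⁻¹' {h m}), h (q (K.symm (u, j)).1) ∈ V := by
    intro u j
    rw [hq, hK']
    exact u.2
  let c : V → (q' ⁻¹' {h m}) → (h ⁻¹' {h m}) := fun u j => (H ⟨q (K.symm (u, j)).1, hmem u j⟩).2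
  have hc : ∀ j, ∀ u u' : V, c u j = c u' j := by
    intro j u u'
    have hcont : Continuous fun u : V => c u j := by
      refine continuous_snd.comp (H.continuous.comp (Continuous.subtype_mk ?_ _))
      exact hqc.comp (continuous_subtype_val.comp (K.symm.continuous.comp (by fun_prop)))
    exact hcV.constant (Y := h ⁻¹' {h m}) hcont.continuousOn (mem_univ _) (mem_univ _)
  let i0 := (H ⟨m, hyV⟩).2
  let W : Set M := {x | ∃ hx : h x ∈ V, (H ⟨x, hx⟩).2 = i0}
  have hcont : Continuous h := hh.continuous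
  have hVo : IsOpen (h ⁻¹' V) := hV.preimage hcont
  have hWo : IsOpen W := by
    have h1 : W = Subtype.val '' ((fun x : h ⁻¹' V => (H x).2) ⁻¹' {i0}) := by
      ext x
      constructor
      · rintro ⟨hx, he⟩
        exact ⟨⟨x, hx⟩, he, rfl⟩
      · rintro ⟨⟨x, hx⟩, he, rfl⟩
        exact ⟨hx, he⟩
    rw [h1]
    exact hVo.isOpenMap_subtype_val _ ((isOpen_discrete _).preimage
      (continuous_snd.comp H.continuous))
  let J0 : Type _ := {j : q' ⁻¹' {h m} // c ⟨h m, hyV⟩ j = i0}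
  have hxV : ∀ w : q ⁻¹' W, q' w.1 ∈ V := by
    intro w
    obtain ⟨hx, -⟩ := w.2
    rw [← hq]
    exact hx
  have hKw : ∀ (w : F) (hw : q' w ∈ V), K.symm (⟨q' w, hw⟩, (K ⟨w, hw⟩).2) = ⟨w, hw⟩ := by
    intro w hw
    have h1 : ((⟨q' w, hw⟩ : V), (K ⟨w, hw⟩).2) = K ⟨w, hw⟩ :=
      Prod.ext (Subtype.ext (hK ⟨w, hw⟩).symm) rfl
    rw [h1, K.symm_apply_apply]
  have hJ : ∀ w : q ⁻¹' W, c ⟨h m, hyV⟩ (K ⟨w.1, hxV w⟩).2 = i0 := by
    intro w
    obtain ⟨hx, he⟩ := w.2
    rw [hc _ _ ⟨q' w.1, hxV w⟩]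
    show (H ⟨q (K.symm (⟨q' w.1, hxV w⟩, (K ⟨w.1, hxV w⟩).2)).1, _⟩).2 = i0
    rw [← he]
    congr 2
    apply Subtype.ext
    show q (K.symm (⟨q' w.1, hxV w⟩, (K ⟨w.1, hxV w⟩).2)).1 = q w.1
    rw [hKw]
  have hinv : ∀ (v : W) (j : J0), ∃ hv : h v.1 ∈ V, q (K.symm (⟨h v.1, hv⟩, j.1)).1 = v.1 := by
    intro v j
    obtain ⟨hv, he⟩ := v.2
    refine ⟨hv, ?_⟩
    have h1 : H ⟨q (K.symm (⟨h v.1, hv⟩, j.1)).1, hmem _ _⟩ = H ⟨v.1, hv⟩ := by
      refine Prod.ext (Subtype.ext ?_) ?_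
      · rw [hH, hH]
        show h (q _) = h v.1
        rw [hq, hK']
      · rw [he]
        show c ⟨h v.1, hv⟩ j.1 = i0
        rw [hc _ _ ⟨h m, hyV⟩]
        exact j.2
    exact congrArg Subtype.val (H.injective h1)
  have : DiscreteTopology (q' ⁻¹' {h m}) := iJ
  refine IsEvenlyCovered.to_isEvenlyCovered_preimage (I := J0) ⟨inferInstance, W, ⟨hyV, rfl⟩, hWo,
    hWo.preimage hqc, { toFun := fun w => (⟨q w.1, w.2⟩, ⟨(K ⟨w.1, hxV w⟩).2, hJ w⟩)
                        invFun := fun p => ⟨(K.symm (⟨h p.1.1, (hinv p.1 p.2).1⟩, p.2.1)).1, by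
                          show q _ ∈ W
                          rw [(hinv p.1 p.2).2]
                          exact p.1.2⟩
                        left_inv := ?_
                        right_inv := ?_
                        continuous_toFun := ?_
                        continuous_invFun := ?_ }, fun w => rfl⟩
  · intro w
    apply Subtype.ext
    have h1 := hKw w.1 (hxV w)
    have h2 : (⟨h (q w.1), by rw [hq]; exact hxV w⟩ : V) = ⟨q' w.1, hxV w⟩ :=
      Subtype.ext (hq _)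
    show (K.symm ((⟨h (q w.1), _⟩ : V), (K ⟨w.1, hxV w⟩).2)).1 = w.1
    rw [h2, h1]
  · intro p
    refine Prod.ext (Subtype.ext (hinv p.1 p.2).2) (Subtype.ext ?_)
    show (K ⟨(K.symm (⟨h p.1.1, _⟩, p.2.1)).1, _⟩).2 = p.2.1
    have h2 : (⟨(K.symm (⟨h p.1.1, (hinv p.1 p.2).1⟩, p.2.1)).1,
      (K.symm (⟨h p.1.1, (hinv p.1 p.2).1⟩, p.2.1)).2⟩ : q' ⁻¹' V) =
        K.symm (⟨h p.1.1, (hinv p.1 p.2).1⟩, p.2.1) := rfl
    rw [h2, K.apply_symm_apply]
  · refine Continuous.prodMk ?_ ?_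
    · exact (hqc.comp continuous_subtype_val).subtype_mk _
    · refine Continuous.subtype_mk ?_ _
      exact continuous_snd.comp (K.continuous.comp (Continuous.subtype_mk continuous_subtype_val _))
  · refine Continuous.subtype_mk ?_ _
    refine continuous_subtype_val.comp (K.symm.continuous.comp ?_)
    refine Continuous.prodMk ?_ ?_
    · exact (hcont.comp (continuous_subtype_val.comp continuous_fst)).subtype_mk _
    · exact continuous_subtype_val.comp continuous_snd

/-- the range of a covering map onto a connected space -/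
theorem surj_of_covering [ConnectedSpace M] [Nonempty F] {q : F → M} (hq : IsCoveringMap q) :
    Function.Surjective q := by
  have hcl : IsClopen (range q) := by
    constructor
    · rw [← isOpen_compl_iff, isOpen_iff_mem_nhds]
      intro x hx
      obtain ⟨-, U, hxU, hU, -, H, hH⟩ := hq x
      filter_upwards [hU.mem_nhds hxU] with z hz
      rintro ⟨w, rfl⟩
      have h1 := (H ⟨w, hz⟩).2
      exact hx ⟨h1.1, h1.2⟩
    · exact hq.isOpenMap.isOpen_range
  have h1 := hcl.eq_univ (range_nonempty q)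
  intro x
  have : x ∈ range q := by rw [h1]; exact mem_univ x
  exact this

end Pool.Agent.Q227.Cov
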