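import Pool.Agent.Q227.Cov.Lift
import Pool.Agent.W964.LieExp.InvDim

/-!
# Coverings of a space by a finite-dimensional vector space lift through coverings by manifolds
-/

set_option autoImplicit false

open Set Filter Topology Module

namespace Pool.Agent.Q227.Cov

/-- images of balls are a basis of connected neighbourhoods -/
theorem loc_of_cover {E' Y : Type*} [NormedAddCommGroup E'] [NormedSpace ℝ E']
    [TopologicalSpace Y] {q' : E' → Y} (hq' : IsCoveringMap q') (hs : Function.Surjective q')
    (y : Y) (U : Set Y) (hU : IsOpen U) (hy : y ∈ U) :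
    ∃ V ⊆ U, IsOpen V ∧ y ∈ V ∧ IsPreconnected V := by
  obtain ⟨w, rfl⟩ := hs y
  obtain ⟨r, hr, hb⟩ := Metric.isOpen_iff.1 (hU.preimage hq'.continuous) w hy
  refine ⟨q' '' Metric.ball w r, ?_, hq'.isOpenMap _ Metric.isOpen_ball,
    ⟨w, Metric.mem_ball_self hr, rfl⟩, ?_⟩
  · rintro _ ⟨z, hz, rfl⟩
    exact hb hz
  · exact ((convex_ball w r).isPreconnected).image _ hq'.continuous.continuousOn

/-- A covering of `Y` by a finite-dimensional vector space lifts through a covering `M → Y` by a
connected manifold `M` to a covering of `M`, and the dimensions agree. -/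
theorem cover_lift {E : Type*} [NormedAddCommGroup E] [NormedSpace ℝ E] [FiniteDimensional ℝ E]
    {M : Type*} [TopologicalSpace M] [ConnectedSpace M] [ChartedSpace E M]
    {Y : Type*} [TopologicalSpace Y] {h : M → Y} (hh : IsCoveringMap h)
    (hhs : Function.Surjective h)
    {E' : Type*} [NormedAddCommGroup E'] [NormedSpace ℝ E'] [FiniteDimensional ℝ E'] {q' : E' → Y}
    (hq' : IsCoveringMap q') (hs' : Function.Surjective q') :
    finrank ℝ E' = finrank ℝ E ∧ ∃ q : E → M, IsCoveringMap q ∧ Function.Surjective q := by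
  obtain ⟨x₀, hx₀⟩ := hhs (q' 0)
  obtain ⟨q, ⟨-, hq⟩, -⟩ := hh.existsUnique_continuousMap_lifts ⟨q', hq'.continuous⟩ 0 x₀ hx₀
  have hq1 : ∀ w, h (q w) = q' w := fun w => congrFun hq w
  have hcov : IsCoveringMap q := covering_of_lift hh hq' q.continuous hq1
    (loc_of_cover hq' hs')
  have hsurj : Function.Surjective q := surj_of_covering hcov
  obtain ⟨e, he0, he⟩ := hcov.isLocalHomeomorph 0
  set φ := chartAt E (q 0) with hφ
  have h0φ : q 0 ∈ φ.source := mem_chart_source _ _
  have hd1 : finrank ℝ E' ≤ finrank ℝ E := by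
    have hU : IsOpen (e.source ∩ q ⁻¹' φ.source) :=
      e.open_source.inter (φ.open_source.preimage q.continuous)
    refine Pool.Agent.W964.LieExp.finrank_le_of_injOn _ hU 0 ⟨he0, h0φ⟩ (fun w => φ (q w)) ?_ ?_
    · exact φ.continuousOn.comp q.continuous.continuousOn fun w hw => hw.2
    · intro a ha b hb hab
      have h1 : q a = q b := φ.injOn ha.2 hb.2 hab
      rw [he] at h1
      exact e.injOn ha.1 hb.1 h1
  have hd2 : finrank ℝ E ≤ finrank ℝ E' := by
    have hU : IsOpen (φ.target ∩ φ.symm ⁻¹' e.target) :=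
      φ.symm.isOpen_inter_preimage e.open_target
    have heq : e 0 = q 0 := by rw [he]
    refine Pool.Agent.W964.LieExp.finrank_le_of_injOn _ hU (φ (q 0)) ⟨φ.map_source h0φ, ?_⟩
      (fun v => e.symm (φ.symm v)) ?_ ?_
    · show φ.symm (φ (q 0)) ∈ e.target
      rw [φ.left_inv h0φ, ← heq]
      exact e.map_source he0
    · exact e.continuousOn_symm.comp (φ.continuousOn_symm.mono inter_subset_left) fun v hv => hv.2
    · intro a ha b hb hab
      have h1 : φ.symm a = φ.symm b := e.symm.injOn ha.2 hb.2 hab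
      exact φ.symm.injOn ha.1 hb.1 h1
  have hd := le_antisymm hd1 hd2
  refine ⟨hd, ?_⟩
  let l : E ≃L[ℝ] E' := ContinuousLinearEquiv.ofFinrankEq hd.symm
  exact ⟨q ∘ l, hcov.comp_homeomorph l.toHomeomorph, hsurj.comp l.surjective⟩

end Pool.Agent.Q227.Cov
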